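import Mathlib

/-!
# Interface of the RS board (MP_3ee548_nt, sums of square roots modulo one)

See `Paper.md` in this folder. Every module of the board is a Prop `<Mod>Statement` below.
-/

set_option autoImplicit false

open scoped BigOperators
open Classical

namespace Pool.Agent.Lib.MP_3ee548_nt.RS

/-- `e x = exp (2 pi i x)`. -/
noncomputable def e (x : ℝ) : ℂ := Complex.exp (((2 * Real.pi * x : ℝ) : ℂ) * Complex.I)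

/-- the dyadic block `[2^k, 2^(k+1))`. -/
def blk (k : ℕ) : Finset ℕ := Finset.Ico (2 ^ k) (2 ^ (k + 1))

/-- number of pairs `(i, j)` of `D` with `|s i - s j - z| ≤ 1/T`. -/
noncomputable def PCz {α : Type} (s : α → ℝ) (D : Finset α) (T z : ℝ) : ℝ :=
  (((D ×ˢ D).filter (fun p : α × α => |s p.1 - s p.2 - z| ≤ 1 / T)).card : ℝ)

/-- number of pairs `(i, j)` of `D` with `|s i - s j| ≤ 1/T`. -/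
noncomputable def PC {α : Type} (s : α → ℝ) (D : Finset α) (T : ℝ) : ℝ :=
  (((D ×ˢ D).filter (fun p : α × α => |s p.1 - s p.2| ≤ 1 / T)).card : ℝ)

/-- number of quadruples `((a, b), (c, d))` of `D` with `|lam a + lam b - lam c - lam d| ≤ 1/T`. -/
noncomputable def Q (lam : ℕ → ℝ) (D : Finset ℕ) (T : ℝ) : ℝ :=
  PC (fun p : ℕ × ℕ => lam p.1 + lam p.2) (D ×ˢ D) T

/-- the frequencies `sqrt m`. -/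
noncomputable def sqf (m : ℕ) : ℝ := Real.sqrt m

/-- the frequencies `1 / m`. -/
noncomputable def rcp (m : ℕ) : ℝ := 1 / (m : ℝ)

/-- majorant of the fourth powers of all sums over initial segments of the block `k`. -/
noncomputable def Bmax (lam : ℕ → ℝ) (k : ℕ) (t : ℝ) : ℝ :=
  ((k : ℝ) + 1) ^ 3 * ∑ l ∈ Finset.range (k + 1), ∑ j ∈ Finset.range (2 ^ (k - l)),
    ‖∑ m ∈ Finset.Ico (2 ^ k + j * 2 ^ l) (2 ^ k + (j + 1) * 2 ^ l), e (t * lam m)‖ ^ 4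

/-- size plus total variation of `g` on the block `j`. -/
noncomputable def BVn (g : ℕ → ℂ) (j : ℕ) : ℝ :=
  ‖g (2 ^ (j + 1) - 1)‖ + ∑ m ∈ Finset.Ico (2 ^ j) (2 ^ (j + 1) - 1), ‖g (m + 1) - g m‖

/-- `h0 z = exp (-pi (z + 1/z))`. -/
noncomputable def h0 (z : ℝ) : ℝ := Real.exp (-Real.pi * (z + 1 / z))

/-- `H z = z^(-3/2) exp (-pi (z + 1/z))`. -/
noncomputable def H (z : ℝ) : ℝ := z ^ (-(3 / 2) : ℝ) * h0 z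

/-- `Y = Y(N, mu)`, the positive solution of `Y^2 - 1/(N Y)^2 = 4 mu`. -/
noncomputable def YY (N mu : ℝ) : ℝ := Real.sqrt (2 * mu + Real.sqrt (4 * mu ^ 2 + 1 / N ^ 2))

/-- `X = X(N, t)`, the positive solution of `X^2 - N^2/X^2 = t^2`. -/
noncomputable def XX (N t : ℝ) : ℝ := Real.sqrt (t ^ 2 / 2 + Real.sqrt (t ^ 4 / 4 + N ^ 2))

/-- the term of index `-mu` on the dual side. -/
noncomputable def EE (N X mu : ℝ) : ℂ :=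
  ((h0 (N * YY N mu / X) : ℝ) : ℂ) * e ((X * YY N mu - 1 / (X * YY N mu)) / 2)

/-- the principal square root of `N - i (X^2 - N^2/X^2)/2`. -/
noncomputable def ra (N X : ℝ) : ℂ :=
  (((X + N / X) / 2 : ℝ) : ℂ) - (((X - N / X) / 2 : ℝ) : ℂ) * Complex.I

/-- the weighted sum over `sqrt m`, `m ~ 2^k`. -/
noncomputable def SA (k : ℕ) (t : ℝ) : ℂ :=
  ∑ m ∈ Finset.Ico (1 : ℕ) (2 ^ (2 * k + 4)), ((h0 (Real.sqrt ((m : ℝ) / 2 ^ k)) : ℝ) : ℂ) * e (t * sqf m)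

/-- the weighted sum over `1 / m`, `m ~ 2^k`. -/
noncomputable def SB (k : ℕ) (xi : ℝ) : ℂ :=
  ∑ m ∈ Finset.Ico (1 : ℕ) (2 ^ (2 * k + 4)), ((H ((m : ℝ) / 2 ^ k) : ℝ) : ℂ) * e (xi * rcp m)

/-- exponent `b` is admissible for square roots. -/
def PA (b : ℝ) : Prop := ∀ ε : ℝ, 0 < ε → ∃ C : ℝ, 0 < C ∧ ∀ k : ℕ,
  Q sqf (blk k) (((2 : ℝ) ^ k) ^ (3 / 2 : ℝ)) ≤ C * ((2 : ℝ) ^ k) ^ (b + ε)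

/-- exponent `b` is admissible for reciprocals. -/
def PB (b : ℝ) : Prop := ∀ ε : ℝ, 0 < ε → ∃ C : ℝ, 0 < C ∧ ∀ k : ℕ,
  Q rcp (blk k) (((2 : ℝ) ^ k) ^ (3 : ℝ)) ≤ C * ((2 : ℝ) ^ k) ^ (b + ε)

/-- the integers in `[n/2, n]`. -/
def I (n : ℕ) : Finset ℕ := (Finset.Icc 1 n).filter (fun m => n ≤ 2 * m)

/-- the sum of the square roots of the entries. -/
noncomputable def sig (r : ℕ) (x : Fin r → ℕ) : ℝ := ∑ i, Real.sqrt (x i)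

/-- the vectors with entries in `I n`. -/
def IV (r n : ℕ) : Finset (Fin r → ℕ) := Fintype.piFinset (fun _ => I n)

/-- the counting function of the problem, `A r n eta = A_{2r}(n, eta)`. -/
noncomputable def A (r n : ℕ) (η : ℝ) : ℕ :=
  ((IV r n ×ˢ IV r n).filter
    (fun p => |sig r p.1 - sig r p.2 - round (sig r p.1 - sig r p.2)| ≤ η)).card

/-! ## Counting and mean values -/

def ShiftStatement : Prop := ∀ (α : Type) (s : α → ℝ) (D : Finset α) (T z : ℝ), 0 < T →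
  PCz s D T z ≤ 4 * PC s D T

def CovStatement : Prop := ∀ (α : Type) (s : α → ℝ) (D : Finset α) (T T' : ℝ), 0 < T → 0 < T' →
  PC s D T ≤ 4 * (1 + T' / T) * PC s D T'

def Pos1Statement : Prop := ∀ (α : Type) (s w : α → ℝ) (D F : Finset α) (T : ℝ), 0 < T →
  D ⊆ F → (∀ i ∈ F, 0 ≤ w i) → (∀ i ∈ D, 1 ≤ w i) →
  PC s D T ≤ 8 / T * ∫ t in (-T)..T, ‖∑ i ∈ F, ((w i : ℝ) : ℂ) * e (t * s i)‖ ^ 2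

def Pos2Statement : Prop := ∃ C : ℝ, 0 < C ∧
  ∀ (α : Type) (s : α → ℝ) (c : α → ℂ) (D : Finset α) (T : ℝ), 0 < T → (∀ i ∈ D, ‖c i‖ ≤ 1) →
  ∫ t in (-T)..T, ‖∑ i ∈ D, c i * e (t * s i)‖ ^ 2 ≤ C * T * PC s D T

def Qpos1Statement : Prop := ∀ (lam w : ℕ → ℝ) (D F : Finset ℕ) (T : ℝ), 0 < T →
  D ⊆ F → (∀ i ∈ F, 0 ≤ w i) → (∀ i ∈ D, 1 ≤ w i) →
  Q lam D T ≤ 8 / T * ∫ t in (-T)..T, ‖∑ i ∈ F, ((w i : ℝ) : ℂ) * e (t * lam i)‖ ^ 4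

def Qpos2Statement : Prop := ∃ C : ℝ, 0 < C ∧
  ∀ (lam : ℕ → ℝ) (c : ℕ → ℂ) (D : Finset ℕ) (T : ℝ), 0 < T → (∀ i ∈ D, ‖c i‖ ≤ 1) →
  ∫ t in (-T)..T, ‖∑ i ∈ D, c i * e (t * lam i)‖ ^ 4 ≤ C * T * Q lam D T

def MaxaStatement : Prop := ∀ (lam : ℕ → ℝ) (k n : ℕ) (t : ℝ), n ≤ 2 ^ k →
  ‖∑ m ∈ Finset.Ico (2 ^ k) (2 ^ k + n), e (t * lam m)‖ ^ 4 ≤ Bmax lam k t

def MaxbStatement : Prop := ∃ C : ℝ, 0 < C ∧ ∀ (lam : ℕ → ℝ) (k : ℕ) (T : ℝ), 0 < T →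
  ∫ t in (-T)..T, Bmax lam k t ≤ C * ((k : ℝ) + 1) ^ 4 * T * Q lam (blk k) T

def AbelStatement : Prop := ∀ (k : ℕ) (g z : ℕ → ℂ) (P : ℝ),
  (∀ n ≤ 2 ^ k, ‖∑ m ∈ Finset.Ico (2 ^ k) (2 ^ k + n), z m‖ ≤ P) →
  ‖∑ m ∈ blk k, g m * z m‖ ≤ P * BVn g k

/-! ## Facts on the two auxiliary functions -/

def YfactStatement : Prop := ∀ N : ℝ, 0 < N →
  (∀ mu : ℝ, 0 < mu → 0 < YY N mu ∧ YY N mu ^ 2 - 1 / (N * YY N mu) ^ 2 = 4 * mu ∧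
    2 * Real.sqrt mu ≤ YY N mu ∧
    YY N mu - 2 * Real.sqrt mu ≤ 1 / (16 * N ^ 2 * (mu * Real.sqrt mu))) ∧
  (∀ m1 m2 : ℝ, 0 < m1 → m1 ≤ m2 → YY N m1 ≤ YY N m2 ∧
    YY N m2 - 2 * Real.sqrt m2 ≤ YY N m1 - 2 * Real.sqrt m1)

def XfactStatement : Prop := ∀ N t : ℝ, 0 < N → 0 ≤ t →
  0 < XX N t ∧ XX N t ^ 2 - N ^ 2 / XX N t ^ 2 = t ^ 2 ∧ t ≤ XX N t ∧ N ≤ XX N t ^ 2 ∧
  (XX N t - t) * XX N t ^ 3 ≤ N ^ 2 ∧ (N ≤ t ^ 2 → XX N t ≤ 1.28 * t)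

/-! ## The exact identity -/

def FtiStatement : Prop := ∀ a b : ℂ, 0 < a.re → 0 < b.re →
  MeasureTheory.IntegrableOn (fun y : ℝ => ((y ^ (-(3 / 2) : ℝ) : ℝ) : ℂ) *
      Complex.exp (-(Real.pi : ℂ) * a / y - (Real.pi : ℂ) * b * y)) (Set.Ioi 0) ∧
  a ^ (1 / 2 : ℂ) * ∫ y in Set.Ioi (0 : ℝ), ((y ^ (-(3 / 2) : ℝ) : ℝ) : ℂ) *
      Complex.exp (-(Real.pi : ℂ) * a / y - (Real.pi : ℂ) * b * y)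
    = Complex.exp (-2 * (Real.pi : ℂ) * (a ^ (1 / 2 : ℂ) * b ^ (1 / 2 : ℂ)))

def PoiStatement : Prop := ∀ (a : ℂ) (β : ℝ), 0 < a.re → 0 < β →
  Summable (fun m : ℤ => ‖Complex.exp (-2 * (Real.pi : ℂ) *
    (a ^ (1 / 2 : ℂ) * ((β : ℂ) + 2 * Complex.I * m) ^ (1 / 2 : ℂ)))‖) ∧
  a ^ (1 / 2 : ℂ) * ∑' n : ℕ, ((((n : ℝ) + 1) ^ (-(3 / 2) : ℝ) : ℝ) : ℂ) *
      Complex.exp (-(Real.pi : ℂ) * a / (n + 1) - (Real.pi : ℂ) * β * (n + 1))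
    = ∑' m : ℤ, Complex.exp (-2 * (Real.pi : ℂ) *
        (a ^ (1 / 2 : ℂ) * ((β : ℂ) + 2 * Complex.I * m) ^ (1 / 2 : ℂ)))

def Root1Statement : Prop := ∀ N X mu : ℝ, 0 < N → 0 < X → N ≤ X ^ 2 → 0 < mu →
  ((N : ℂ) - ((X ^ 2 - N ^ 2 / X ^ 2) / 2 : ℝ) * Complex.I) ^ (1 / 2 : ℂ) = ra N X ∧
  Complex.exp (-2 * (Real.pi : ℂ) * (ra N X *
    (((1 / N : ℝ) : ℂ) - 2 * mu * Complex.I) ^ (1 / 2 : ℂ))) = EE N X mu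

def Root2Statement : Prop := ∀ N X m : ℝ, 0 < N → 0 < X → N ≤ X ^ 2 → 0 ≤ m →
  ‖Complex.exp (-2 * (Real.pi : ℂ) * (ra N X *
    (((1 / N : ℝ) : ℂ) + 2 * m * Complex.I) ^ (1 / 2 : ℂ)))‖ ≤ Real.exp (-Real.pi * X * Real.sqrt m)

def DualStatement : Prop := ∀ N X : ℝ, 0 < N → 1 ≤ X → N ≤ X ^ 2 →
  Summable (fun mu : ℕ => ‖EE N X ((mu : ℝ) + 1)‖) ∧
  ‖ra N X * ((N ^ (-(3 / 2) : ℝ) : ℝ) : ℂ) * (∑' n : ℕ, ((H (((n : ℝ) + 1) / N) : ℝ) : ℂ) *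
      e ((X ^ 2 - N ^ 2 / X ^ 2) / 4 * (1 / ((n : ℝ) + 1))))
    - ∑' mu : ℕ, EE N X ((mu : ℝ) + 1)‖ ≤ 2

/-! ## Pointwise inequalities -/

def HbStatement : Prop := ∃ C : ℝ, 0 < C ∧ ∀ (N c : ℝ) (j : ℕ), 1 / 2 ≤ N → 0 ≤ c → c ≤ 1 →
  BVn (fun m => ((H ((m : ℝ) / N) : ℝ) : ℂ) * e (-(c / m))) j
    ≤ C * Real.exp (-((2 : ℝ) ^ j / N + N / (2 : ℝ) ^ j))

def WbStatement : Prop := ∃ C : ℝ, 0 < C ∧ ∀ (N xi : ℝ) (j : ℕ), 1 ≤ N → N ≤ 4 * xi →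
  xi ≤ 2 * N ^ 3 →
  BVn (fun m => EE N (XX N (2 * Real.sqrt xi)) m * e (-(2 * Real.sqrt xi * Real.sqrt m))) j
    ≤ C * Real.exp (-(N * Real.sqrt ((2 : ℝ) ^ j) / Real.sqrt xi
        + Real.sqrt xi / (N * Real.sqrt ((2 : ℝ) ^ j))))

def ApprStatement : Prop := ∃ C : ℝ, 0 < C ∧ ∀ K X : ℝ, 1 ≤ K → Real.sqrt K ≤ X →
  Summable (fun mu : ℕ => ‖EE (X / (2 * Real.sqrt K)) X ((mu : ℝ) + 1)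
    - ((h0 (Real.sqrt (((mu : ℝ) + 1) / K)) : ℝ) : ℂ) * e (X * Real.sqrt ((mu : ℝ) + 1))‖) ∧
  ∑' mu : ℕ, ‖EE (X / (2 * Real.sqrt K)) X ((mu : ℝ) + 1)
    - ((h0 (Real.sqrt (((mu : ℝ) + 1) / K)) : ℝ) : ℂ) * e (X * Real.sqrt ((mu : ℝ) + 1))‖ ≤ C

def CaseaStatement : Prop := ∃ C : ℝ, 0 < C ∧ ∀ (k : ℕ) (t : ℝ),
  Real.sqrt ((2 : ℝ) ^ k) ≤ t → t ≤ 2 * ((2 : ℝ) ^ k) ^ (3 / 2 : ℝ) →
  ‖SA k t‖ ^ 4 ≤ C * (1 + ((2 : ℝ) ^ k) ^ 3 / t ^ 2 * ∑ j ∈ Finset.range (2 * k + 2),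
    Real.exp (-((2 : ℝ) ^ (j + 1) * Real.sqrt ((2 : ℝ) ^ k) / t
        + t / ((2 : ℝ) ^ (j + 1) * Real.sqrt ((2 : ℝ) ^ k)))) * Bmax rcp j (t ^ 2 / 4))

def CasebStatement : Prop := ∃ C : ℝ, 0 < C ∧ ∀ (k : ℕ) (xi : ℝ),
  (2 : ℝ) ^ k ≤ 4 * xi → xi ≤ 2 * ((2 : ℝ) ^ k) ^ 3 →
  ‖SB k xi‖ ^ 4 ≤ C * (((2 : ℝ) ^ k) ^ 6 / xi ^ 2) * (1 + ∑ j ∈ Finset.range (2 * k + 4),
    Real.exp (-((2 : ℝ) ^ k * Real.sqrt ((2 : ℝ) ^ j) / Real.sqrt xi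
        + Real.sqrt xi / ((2 : ℝ) ^ k * Real.sqrt ((2 : ℝ) ^ j)))) *
      Bmax sqf j (2 * Real.sqrt xi))

/-! ## The bootstrapping -/

def TrivaStatement : Prop := ∃ C : ℝ, 0 < C ∧ ∀ (j : ℕ) (T : ℝ), 0 < T →
  Q sqf (blk j) T ≤ C * ((2 : ℝ) ^ j) ^ 3 * (1 + Real.sqrt ((2 : ℝ) ^ j) / T)

def TrivbStatement : Prop := PB 3

def LowaStatement : Prop := ∃ C : ℝ, 0 < C ∧ ∀ k : ℕ,
  ∫ t in (0 : ℝ)..(Real.sqrt ((2 : ℝ) ^ k)), ‖SA k t‖ ^ 4 ≤ C * ((2 : ℝ) ^ k) ^ (7 / 2 : ℝ)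

def LowbStatement : Prop := ∃ C : ℝ, 0 < C ∧ ∀ (k : ℕ) (xi : ℝ), ‖SB k xi‖ ≤ C * (2 : ℝ) ^ k

def IntaStatement : Prop := ∀ b : ℝ, 2 ≤ b → b ≤ 3 → PB b → ∀ ε : ℝ, 0 < ε → ∃ C : ℝ, 0 < C ∧
  ∀ (k : ℕ) (τ : ℝ), Real.sqrt ((2 : ℝ) ^ k) ≤ τ → τ ≤ ((2 : ℝ) ^ k) ^ (3 / 2 : ℝ) →
  ∫ t in τ..(2 * τ), ‖SA k t‖ ^ 4
    ≤ C * ((2 : ℝ) ^ k) ^ ε * (τ + ((2 : ℝ) ^ k) ^ (3 - b / 2) * τ ^ (b - 1))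

def IntbStatement : Prop := ∀ b : ℝ, 2 ≤ b → b ≤ 3 → PA b → ∀ ε : ℝ, 0 < ε → ∃ C : ℝ, 0 < C ∧
  ∀ (k : ℕ) (x : ℝ), (2 : ℝ) ^ k ≤ x → x ≤ ((2 : ℝ) ^ k) ^ 3 →
  ∫ t in x..(2 * x), ‖SB k t‖ ^ 4
    ≤ C * ((2 : ℝ) ^ k) ^ ε * (((2 : ℝ) ^ k) ^ 6 / x) * (1 + (x / ((2 : ℝ) ^ k) ^ 2) ^ b)

def AsmaStatement : Prop := ∀ b : ℝ, 2 ≤ b → b ≤ 3 → PB b → PA (7 / 2 - (1 + b) / (2 * (b - 1)))

def AsmbStatement : Prop := ∀ b : ℝ, 2 ≤ b → b ≤ 3 → PA b → PB (5 - (2 * b - 1) / (b - 1))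

def IterStatement : Prop := PA 2

/-! ## Derivative tests and the upper bound for single values -/

/-- iterated forward differences. -/
def Dk (k : ℕ) (φ : ℕ → ℝ) : ℕ → ℝ := (fwdDiff 1)^[k] φ

def KderStatement : Prop := ∀ k : ℕ, 2 ≤ k → ∀ A : ℝ, 1 ≤ A → ∃ C : ℝ, 0 < C ∧
  ∀ (φ : ℕ → ℝ) (a b : ℕ) (mu : ℝ), a < b → b ≤ 2 * a → 0 < mu →
  (∀ n, a ≤ n → n + k < b → mu ≤ Dk k φ n ∧ Dk k φ n ≤ A * mu) →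
  ‖∑ n ∈ Finset.Ico a b, e (φ n)‖ ≤ C * (((b : ℝ) - a) * mu ^ (1 / ((2 : ℝ) ^ k - 2))
    + ((b : ℝ) - a) ^ (1 - (2 : ℝ) ^ (2 - (k : ℝ))) * mu ^ (-(1 / ((2 : ℝ) ^ k - 2))))

def DsqStatement : Prop := ∀ k : ℕ, 1 ≤ k → ∃ c C : ℝ, 0 < c ∧ 0 < C ∧ ∀ n : ℕ, 1 ≤ n →
  c * (n : ℝ) ^ (1 / 2 - (k : ℝ)) ≤ (-1) ^ (k + 1) * Dk k sqf n ∧
  (-1) ^ (k + 1) * Dk k sqf n ≤ C * (n : ℝ) ^ (1 / 2 - (k : ℝ))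

def SupbStatement : Prop := ∀ k : ℕ, 3 ≤ k → ∃ C : ℝ, 0 < C ∧ ∀ (n : ℕ) (t T : ℝ), 1 ≤ n →
  (n : ℝ) ^ (3 / 2 : ℝ) ≤ t → t ≤ T →
  ‖∑ m ∈ I n, e (t * sqf m)‖
    ≤ C * (n : ℝ) ^ (1 - (2 * (k : ℝ) - 1) / (2 * ((2 : ℝ) ^ k - 2))) * T ^ (1 / ((2 : ℝ) ^ k - 2))

/-! ## The final part -/

def AredStatement : Prop := ∀ r : ℕ, ∃ C : ℝ, 0 < C ∧ ∀ (n : ℕ) (η : ℝ), 1 ≤ n → 0 < η →
  (A r n η : ℝ) ≤ C * Real.sqrt n * PC (sig r) (IV r n) (1 / η)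

def PcredStatement : Prop := ∀ (r n : ℕ) (T : ℝ), 1 ≤ n → 0 < T →
  PC (sig (r + 2)) (IV (r + 2) n) T ≤ (4 * (n : ℝ) ^ 2) ^ r * PC (sig 2) (IV 2 n) T

def Mom1Statement : Prop := ∀ (r n : ℕ) (T : ℝ), 0 < T →
  PC (sig r) (IV r n) T ≤ 16 / T * ∫ t in (0 : ℝ)..T, ‖∑ m ∈ I n, e (t * sqf m)‖ ^ (2 * r)

def Mom2Statement : Prop := ∃ C : ℝ, 0 < C ∧ ∀ (r n : ℕ) (T : ℝ), 0 < T →
  ∫ t in (0 : ℝ)..T, ‖∑ m ∈ I n, e (t * sqf m)‖ ^ (2 * r) ≤ C * T * PC (sig r) (IV r n) T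

def Pc2Statement : Prop := ∀ ε : ℝ, 0 < ε → ∃ C : ℝ, 0 < C ∧ ∀ (n : ℕ) (T : ℝ), 1 ≤ n → 0 < T →
  PC (sig 2) (IV 2 n) T ≤ C * (n : ℝ) ^ ε * ((n : ℝ) ^ 2 + (n : ℝ) ^ (7 / 2 : ℝ) / T)

/-- the exponent `theta(r, k)`. -/
noncomputable def theta (r k : ℕ) : ℝ :=
  (3 * ((2 : ℝ) ^ (k - 1) - 1) + ((r : ℝ) - 2) * (2 * k - 1)) / (2 * ((2 : ℝ) ^ (k - 1) + r - 3))

def MainStatement : Prop := ∀ r k : ℕ, 2 ≤ r → 3 ≤ k → ∀ ε : ℝ, 0 < ε → ∃ C : ℝ, 0 < C ∧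
  ∀ (n : ℕ) (η : ℝ), 1 ≤ n → 0 < η → η ≤ 1 / 2 →
  (A r n η : ℝ) ≤ C * (n : ℝ) ^ ε * ((n : ℝ) ^ (2 * (r : ℝ) - theta r k) + (n : ℝ) ^ (2 * r) * η)

end Pool.Agent.Lib.MP_3ee548_nt.RS
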